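import Mathlib

-- part MP_cba161_mp.Lower
section

/-!
One-body lower bound for the kinetic energy by a vector field: `T ≥ div F - |F|²`.
-/

set_option autoImplicit false

open MeasureTheory Filter Topology

namespace Pool.Agent.MP_cba161_mp

/-- Euclidean three-space. -/
abbrev E3 : Type := EuclideanSpace ℝ (Fin 3)

theorem aux_ibp (f I a b : ℝ) (h : |I| ≤ a * b) : -(f * (2 * I)) - f ^ 2 * a ^ 2 ≤ b ^ 2 := by
  have h3 : -(f * I) ≤ |f| * (a * b) := by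
    calc -(f * I) ≤ |f * I| := neg_le_abs _
      _ = |f| * |I| := abs_mul _ _
      _ ≤ _ := mul_le_mul_of_nonneg_left h (abs_nonneg _)
  nlinarith [sq_nonneg (|f| * a - b), sq_abs f]

theorem integrable_norm_sq {W : Type*} [NormedAddCommGroup W] [NormedSpace ℝ W]
    [FiniteDimensional ℝ W] [MeasurableSpace W] [BorelSpace W] (μ : Measure W)
    [μ.IsAddHaarMeasure] {φ : W → ℂ} (hφ : Continuous φ) (hc : HasCompactSupport φ) :
    Integrable (fun x => ‖φ x‖ ^ 2) μ := by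
  have h1 : Continuous fun x => ‖φ x‖ ^ 2 := by fun_prop
  have h2 : HasCompactSupport fun x => ‖φ x‖ ^ 2 :=
    hc.comp_left (g := fun w : ℂ => ‖w‖ ^ 2) (by simp)
  exact h1.integrable_of_hasCompactSupport h2

theorem ibp_dir {W : Type*} [NormedAddCommGroup W] [NormedSpace ℝ W] [FiniteDimensional ℝ W]
    [MeasurableSpace W] [BorelSpace W] (μ : Measure W) [μ.IsAddHaarMeasure]
    (φ : W → ℂ) (hφ : ContDiff ℝ 1 φ) (hc : HasCompactSupport φ) (v : W) (F F' : W → ℝ)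
    (hF : Continuous F) (hF' : Continuous F') (hd : ∀ x, HasLineDerivAt ℝ F (F' x) x v) :
    ∫ x, (F' x - F x ^ 2) * ‖φ x‖ ^ 2 ∂μ ≤ ∫ x, ‖fderiv ℝ φ x v‖ ^ 2 ∂μ := by
  have hφc : Continuous φ := hφ.continuous
  have hDc : Continuous fun x => fderiv ℝ φ x v :=
    (hφ.continuous_fderiv (by norm_num)).clm_apply continuous_const
  have hDs : HasCompactSupport fun x => fderiv ℝ φ x v := hc.fderiv_apply (𝕜 := ℝ) v
  let ρ : W → ℝ := fun x => ‖φ x‖ ^ 2
  let ρ' : W → ℝ := fun x => 2 * inner ℝ (φ x) (fderiv ℝ φ x v)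
  have hρc : Continuous ρ := by fun_prop
  have hρ'c : Continuous ρ' := continuous_const.mul (hφc.inner hDc)
  have hρs : HasCompactSupport ρ := hc.comp_left (g := fun w : ℂ => ‖w‖ ^ 2) (by simp)
  have hρ's : HasCompactSupport ρ' := by
    have h0 : Function.support ρ' ⊆ Function.support φ := by
      intro x hx h0
      apply hx
      simp only [ρ', h0, inner_zero_left, mul_zero]
    exact HasCompactSupport.mono hc h0
  have hρd : ∀ x, HasLineDerivAt ℝ ρ (ρ' x) x v := by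
    intro x
    have h1 := ((hφ.differentiable (by norm_num) x).hasFDerivAt.norm_sq).hasLineDerivAt v
    have h2 : (2 • (innerSL ℝ (φ x)).comp (fderiv ℝ φ x)) v = ρ' x := by
      simp only [ρ', smul_apply, ContinuousLinearMap.comp_apply,
        innerSL_apply_apply, nsmul_eq_mul, Nat.cast_ofNat]
    rw [h2] at h1
    exact h1
  have i1 : Integrable (fun x => F' x * ρ x) μ :=
    (hF'.mul hρc).integrable_of_hasCompactSupport hρs.mul_left
  have i2 : Integrable (fun x => F x * ρ' x) μ :=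
    (hF.mul hρ'c).integrable_of_hasCompactSupport hρ's.mul_left
  have i3 : Integrable (fun x => F x * ρ x) μ :=
    (hF.mul hρc).integrable_of_hasCompactSupport hρs.mul_left
  have i4 : Integrable (fun x => F x ^ 2 * ρ x) μ :=
    ((hF.pow 2).mul hρc).integrable_of_hasCompactSupport hρs.mul_left
  have i5 : Integrable (fun x => ‖fderiv ℝ φ x v‖ ^ 2) μ := integrable_norm_sq μ hDc hDs
  have hibp := integral_bilinear_hasLineDerivAt_right_eq_neg_left_of_integrable (μ := μ)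
    (B := ContinuousLinearMap.mul ℝ ℝ) (f := F) (f' := F') (g := ρ) (g' := ρ') (v := v)
    i1 i2 i3 (fun x _ => hd x) (fun x _ => hρd x)
  simp only [ContinuousLinearMap.mul_apply'] at hibp
  have h1 : ∫ x, (F' x - F x ^ 2) * ‖φ x‖ ^ 2 ∂μ
      = ∫ x, (-(F x * ρ' x) - F x ^ 2 * ρ x) ∂μ := by
    have i2' : Integrable (fun x => -(F x * ρ' x)) μ := i2.neg
    rw [integral_sub i2' i4, integral_neg, hibp, neg_neg, ← integral_sub i1 i4]
    congr 1; funext x; simp only [ρ]; ring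
  rw [h1]
  have i6 : Integrable (fun x => -(F x * ρ' x) - F x ^ 2 * ρ x) μ := i2.neg.sub i4
  have h7 : ∀ x, -(F x * ρ' x) - F x ^ 2 * ρ x ≤ ‖fderiv ℝ φ x v‖ ^ 2 := fun x =>
    aux_ibp (F x) (inner ℝ (φ x) (fderiv ℝ φ x v)) ‖φ x‖ ‖fderiv ℝ φ x v‖
      (abs_real_inner_le_norm (φ x) (fderiv ℝ φ x v))
  exact integral_mono i6 i5 h7

/-- The regularised distance. -/
noncomputable def sr (t : ℝ) (y : E3) : ℝ := √(‖y‖ ^ 2 + t ^ 2)

theorem sr_pos {t : ℝ} (ht : 0 < t) (y : E3) : 0 < sr t y := Real.sqrt_pos.mpr (by positivity)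

theorem sr_sq (t : ℝ) (y : E3) : sr t y ^ 2 = ‖y‖ ^ 2 + t ^ 2 := Real.sq_sqrt (by positivity)

theorem norm_le_sr (t : ℝ) (y : E3) : ‖y‖ ≤ sr t y :=
  Real.le_sqrt_of_sq_le (by nlinarith [sq_nonneg t])

theorem le_sr (t : ℝ) (y : E3) : t ≤ sr t y :=
  Real.le_sqrt_of_sq_le (by nlinarith [sq_nonneg ‖y‖])

theorem sr_le {t : ℝ} (ht : 0 ≤ t) (y : E3) : sr t y ≤ ‖y‖ + t :=
  Real.sqrt_le_iff.mpr ⟨by positivity, by nlinarith [norm_nonneg y]⟩

theorem sr_mono {t t' : ℝ} (ht : 0 ≤ t) (h : t ≤ t') (y : E3) : sr t y ≤ sr t' y :=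
  Real.sqrt_le_sqrt (by nlinarith)

theorem continuous_sr (t : ℝ) : Continuous (sr t) := by unfold sr; fun_prop

theorem hasDerivAt_field {t : ℝ} (ht : 0 < t) (y : E3) (k : Fin 3) :
    HasDerivAt (fun τ : ℝ => (y + τ • EuclideanSpace.single k (1 : ℝ)) k /
      sr t (y + τ • EuclideanSpace.single k (1 : ℝ))) (1 / sr t y - y k ^ 2 / sr t y ^ 3) 0 := by
  have h0 : HasDerivAt (fun τ : ℝ => y + τ • EuclideanSpace.single k (1 : ℝ))
      (EuclideanSpace.single k (1 : ℝ)) 0 := by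
    simpa using ((hasDerivAt_id (0 : ℝ)).smul_const (EuclideanSpace.single k (1 : ℝ))).const_add y
  have h1 : HasDerivAt (fun τ : ℝ => (y + τ • EuclideanSpace.single k (1 : ℝ)) k) 1 0 := by
    have : (fun τ : ℝ => (y + τ • EuclideanSpace.single k (1 : ℝ)) k) = fun τ => y k + τ := by
      funext τ; simp
    rw [this]
    simpa using (hasDerivAt_id (0 : ℝ)).const_add (y k)
  have h2 := (h0.norm_sq.add_const (t ^ 2)).sqrt (by positivity)
  have hs := sr_pos ht y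
  have h3 := h1.div h2 (by simpa [sr] using hs.ne')
  refine h3.congr_deriv (Eq.symm ?_)
  simp only [zero_smul, add_zero, EuclideanSpace.inner_single_right, one_mul, conj_trivial]
  change _ = (sr t y - y k * (2 * y k / (2 * sr t y))) / sr t y ^ 2
  field_simp

/-- Configuration space of `N` electrons. -/
abbrev Conf (N : ℕ) : Type := Fin N → E3

/-- The regularised potential with cut-off length `a`. -/
noncomputable def GG {K : ℕ} (z : Fin K → ℝ) (P : Fin K → E3) (a : ℝ) (y : E3) : ℝ :=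
  ∑ j, z j / sr a (y - P j)

/-- The position dependent cost of the one-body inequality. -/
noncomputable def cost {K : ℕ} (z : Fin K → ℝ) (P : Fin K → E3) (a : ℝ) (y : E3) : ℝ :=
  3 / 2 * GG z P a y + (a * GG z P a y / 2) ^ 2

/-- Kinetic energy density of the `i`-th electron. -/
noncomputable def kin {N : ℕ} (φ : Conf N → ℂ) (i : Fin N) (x : Conf N) : ℝ :=
  ∑ k : Fin 3, ‖fderiv ℝ φ x (Pi.single i (EuclideanSpace.single k (1 : ℝ)))‖ ^ 2

theorem continuous_GG {K : ℕ} (z : Fin K → ℝ) (P : Fin K → E3) {a : ℝ} (ha : 0 < a) :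
    Continuous (GG z P a) :=
  continuous_finsetSum _ fun _ _ => continuous_const.div
    ((continuous_sr a).comp (continuous_id.sub continuous_const)) fun _ => (sr_pos ha _).ne'

theorem continuous_cost {K : ℕ} (z : Fin K → ℝ) (P : Fin K → E3) {a : ℝ} (ha : 0 < a) :
    Continuous (cost z P a) := by
  have := continuous_GG z P ha
  unfold cost
  fun_prop

theorem GG_nonneg {K : ℕ} {z : Fin K → ℝ} (hz : ∀ j, 0 ≤ z j) (P : Fin K → E3) (a : ℝ) (y : E3) :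
    0 ≤ GG z P a y :=
  Finset.sum_nonneg fun j _ => div_nonneg (hz j) (Real.sqrt_nonneg _)

theorem integrable_kin {N : ℕ} {φ : Conf N → ℂ} (hφ : ContDiff ℝ 1 φ) (hc : HasCompactSupport φ)
    (i : Fin N) : Integrable (kin φ i) :=
  integrable_finsetSum _ fun k _ => integrable_norm_sq volume
    ((hφ.continuous_fderiv (by norm_num)).clm_apply continuous_const) (hc.fderiv_apply (𝕜 := ℝ) _)

theorem integrable_mul_norm_sq {N : ℕ} {φ : Conf N → ℂ} (hφ : Continuous φ)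
    (hc : HasCompactSupport φ) {F : Conf N → ℝ} (hF : Continuous F) :
    Integrable (fun x => F x * ‖φ x‖ ^ 2) := by
  have hρs : HasCompactSupport fun x => ‖φ x‖ ^ 2 :=
    hc.comp_left (g := fun w : ℂ => ‖w‖ ^ 2) (by simp)
  exact (hF.mul (hφ.norm.pow 2)).integrable_of_hasCompactSupport hρs.mul_left

theorem sum_sq_coord (y : E3) : ∑ k, y k ^ 2 = ‖y‖ ^ 2 := by
  rw [EuclideanSpace.norm_sq_eq]; simp

theorem div_field_ge {δ a : ℝ} (hδ : 0 < δ) (ha : 0 < a) (y : E3) :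
    2 / sr δ y - 3 / sr a y ≤ ∑ k : Fin 3, ((1 / sr δ y - y k ^ 2 / sr δ y ^ 3)
      - (1 / sr a y - y k ^ 2 / sr a y ^ 3)) := by
  simp only [Finset.sum_sub_distrib, ← Finset.sum_div, sum_sq_coord, Finset.sum_const,
    Finset.card_univ, Fintype.card_fin, nsmul_eq_mul, Nat.cast_ofNat]
  have h1 := sr_pos hδ y
  have h2 := sr_pos ha y
  have h3 : ‖y‖ ^ 2 / sr δ y ^ 3 ≤ 1 / sr δ y := by
    rw [div_le_div_iff₀ (by positivity) h1]
    have := sr_sq δ y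
    nlinarith [sq_nonneg δ]
  have h4 : 0 ≤ ‖y‖ ^ 2 / sr a y ^ 3 := by positivity
  have h5 : 2 / sr δ y = 2 * (1 / sr δ y) := by ring
  have h6 : 3 * 1 / sr δ y = 3 * (1 / sr δ y) := by ring
  have h7 : 3 * 1 / sr a y = 3 / sr a y := by ring
  linarith

theorem field_norm_le {δ a : ℝ} (hδ : 0 < δ) (hδa : δ ≤ a) (y : E3) :
    ‖(1 / sr δ y - 1 / sr a y) • y‖ ≤ a / sr a y := by
  have ha : 0 < a := hδ.trans_le hδa
  have h1 := sr_pos hδ y
  have h2 := sr_pos ha y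
  have h3 : 1 / sr a y ≤ 1 / sr δ y := one_div_le_one_div_of_le h1 (sr_mono hδ.le hδa y)
  rw [norm_smul, Real.norm_of_nonneg (by linarith), sub_mul]
  have h4 : 1 / sr δ y * ‖y‖ ≤ 1 := by
    rw [one_div, inv_mul_le_iff₀ h1]; simpa using norm_le_sr δ y
  have h5 : 1 ≤ a / sr a y + 1 / sr a y * ‖y‖ := by
    have := sr_le ha.le y
    rw [one_div_mul_eq_div, ← add_div, le_div_iff₀ h2]; linarith
  linarith

theorem onebody_reg {K N : ℕ} {z : Fin K → ℝ} (hz : ∀ j, 0 ≤ z j) (P : Fin K → E3) {δ a : ℝ}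
    (hδ : 0 < δ) (hδa : δ ≤ a) {φ : Conf N → ℂ} (hφ : ContDiff ℝ 1 φ) (hc : HasCompactSupport φ)
    (i : Fin N) :
    ∫ x, (GG z P δ (x i) - cost z P a (x i)) * ‖φ x‖ ^ 2 ≤ ∫ x, kin φ i x := by
  have ha : 0 < a := hδ.trans_le hδa
  let F : Fin 3 → Conf N → ℝ := fun k x =>
    ∑ j, z j / 2 * ((x i - P j) k / sr δ (x i - P j) - (x i - P j) k / sr a (x i - P j))
  let F' : Fin 3 → Conf N → ℝ := fun k x =>
    ∑ j, z j / 2 * ((1 / sr δ (x i - P j) - (x i - P j) k ^ 2 / sr δ (x i - P j) ^ 3)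
      - (1 / sr a (x i - P j) - (x i - P j) k ^ 2 / sr a (x i - P j) ^ 3))
  have hs : ∀ (t : ℝ) (j : Fin K), Continuous fun x : Conf N => sr t (x i - P j) := fun t j =>
    (continuous_sr t).comp ((continuous_apply i).sub continuous_const)
  have hk : ∀ (k : Fin 3) (j : Fin K), Continuous fun x : Conf N => (x i - P j) k := fun k j => by
    fun_prop
  have hF : ∀ k, Continuous (F k) := fun k => continuous_finsetSum _ fun j _ =>
    continuous_const.mul (((hk k j).div (hs δ j) fun _ => (sr_pos hδ _).ne').sub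
      ((hk k j).div (hs a j) fun _ => (sr_pos ha _).ne'))
  have hF' : ∀ k, Continuous (F' k) := fun k => continuous_finsetSum _ fun j _ =>
    continuous_const.mul
      (((continuous_const.div (hs δ j) fun _ => (sr_pos hδ _).ne').sub
        (((hk k j).pow 2).div ((hs δ j).pow 3) fun _ => pow_ne_zero _ (sr_pos hδ _).ne')).sub
      ((continuous_const.div (hs a j) fun _ => (sr_pos ha _).ne').sub
        (((hk k j).pow 2).div ((hs a j).pow 3) fun _ => pow_ne_zero _ (sr_pos ha _).ne')))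
  have hd : ∀ k x, HasLineDerivAt ℝ (F k) (F' k x) x
      (Pi.single i (EuclideanSpace.single k (1 : ℝ))) := by
    intro k x
    have h1 : ∀ (j : Fin K) (τ : ℝ),
        (x + τ • (Pi.single i (EuclideanSpace.single k (1 : ℝ)) : Conf N)) i - P j
        = (x i - P j) + τ • EuclideanSpace.single k (1 : ℝ) := by
      intro j τ
      simp only [Pi.add_apply, Pi.smul_apply, Pi.single_eq_same]
      abel
    unfold HasLineDerivAt
    simp only [F, F', h1]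
    exact HasDerivAt.fun_sum fun j _ =>
      ((hasDerivAt_field hδ (x i - P j) k).fun_sub (hasDerivAt_field ha (x i - P j) k)).const_mul _
  have hle := fun k => ibp_dir volume φ hφ hc _ (F k) (F' k) (hF k) (hF' k) (hd k)
  have hint : ∀ k, Integrable fun x => (F' k x - F k x ^ 2) * ‖φ x‖ ^ 2 := fun k =>
    integrable_mul_norm_sq hφ.continuous hc ((hF' k).sub ((hF k).pow 2))
  have hint2 : ∀ k : Fin 3, Integrable fun x =>
      ‖fderiv ℝ φ x (Pi.single i (EuclideanSpace.single k (1 : ℝ)))‖ ^ 2 := fun k =>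
    integrable_norm_sq volume
      ((hφ.continuous_fderiv (by norm_num)).clm_apply continuous_const) (hc.fderiv_apply (𝕜 := ℝ) _)
  have h2 : ∫ x, ∑ k, (F' k x - F k x ^ 2) * ‖φ x‖ ^ 2 ≤ ∫ x, kin φ i x := by
    unfold kin
    rw [integral_finsetSum _ fun k _ => hint k, integral_finsetSum _ fun k _ => hint2 k]
    exact Finset.sum_le_sum fun k _ => hle k
  refine le_trans ?_ h2
  have hint3 : Integrable fun x : Conf N => (GG z P δ (x i) - cost z P a (x i)) * ‖φ x‖ ^ 2 :=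
    integrable_mul_norm_sq hφ.continuous hc
      (((continuous_GG z P hδ).sub (continuous_cost z P ha)).comp (continuous_apply i))
  refine integral_mono hint3 (integrable_finsetSum _ fun k _ => hint k) fun x => ?_
  simp only [← Finset.sum_mul]
  refine mul_le_mul_of_nonneg_right ?_ (by positivity)
  rw [Finset.sum_sub_distrib]
  have h3 : GG z P δ (x i) - 3 / 2 * GG z P a (x i) ≤ ∑ k, F' k x := by
    simp only [F', GG]
    rw [Finset.sum_comm, Finset.mul_sum, ← Finset.sum_sub_distrib]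
    refine Finset.sum_le_sum fun j _ => ?_
    rw [← Finset.mul_sum]
    have := mul_le_mul_of_nonneg_left (div_field_ge hδ ha (x i - P j))
      (div_nonneg (hz j) (by norm_num : (0 : ℝ) ≤ 2))
    refine le_trans (le_of_eq ?_) this
    ring
  have h4 : ∑ k, F k x ^ 2 ≤ (a * GG z P a (x i) / 2) ^ 2 := by
    let w : E3 := ∑ j, (z j / 2) •
      ((1 / sr δ (x i - P j) - 1 / sr a (x i - P j)) • (x i - P j))
    have hw : ∀ k, F k x = w k := by
      intro k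
      simp only [F, w, WithLp.ofLp_sum, WithLp.ofLp_smul, Finset.sum_apply, Pi.smul_apply,
        smul_eq_mul]
      refine Finset.sum_congr rfl fun j _ => by ring
    simp only [hw, sum_sq_coord]
    refine pow_le_pow_left₀ (norm_nonneg _) ?_ 2
    refine (norm_sum_le _ _).trans ?_
    simp only [GG, Finset.mul_sum, Finset.sum_div]
    refine Finset.sum_le_sum fun j _ => ?_
    rw [norm_smul, Real.norm_of_nonneg (div_nonneg (hz j) (by norm_num))]
    have := mul_le_mul_of_nonneg_left (field_norm_le hδ hδa (x i - P j))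
      (div_nonneg (hz j) (by norm_num : (0 : ℝ) ≤ 2))
    refine this.trans (le_of_eq ?_)
    ring
  unfold cost
  linarith

theorem fatou_real {α : Type*} [MeasurableSpace α] {μ : Measure α} {f : ℕ → α → ℝ} {g : α → ℝ}
    {C : ℝ} (h0 : ∀ n x, 0 ≤ f n x) (hint : ∀ n, Integrable (f n) μ)
    (hlim : ∀ x, Tendsto (fun n => f n x) atTop (𝓝 (g x))) (hC : ∀ n, ∫ x, f n x ∂μ ≤ C) :
    Integrable g μ ∧ ∫ x, g x ∂μ ≤ C := by
  have hg0 : ∀ x, 0 ≤ g x := fun x => ge_of_tendsto' (hlim x) fun n => h0 n x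
  have hC0 : 0 ≤ C := (integral_nonneg (h0 0)).trans (hC 0)
  have hm : AEStronglyMeasurable g μ :=
    aestronglyMeasurable_of_tendsto_ae _ (fun n => (hint n).1) (Eventually.of_forall hlim)
  have h1 : ∫⁻ x, ENNReal.ofReal (g x) ∂μ ≤ ENNReal.ofReal C := by
    have h2 : ∀ x, ENNReal.ofReal (g x) = liminf (fun n => ENNReal.ofReal (f n x)) atTop :=
      fun x => ((ENNReal.continuous_ofReal.tendsto _).comp (hlim x)).liminf_eq.symm
    simp only [h2]
    refine (lintegral_liminf_le' fun n => (hint n).1.aemeasurable.ennreal_ofReal).trans ?_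
    refine liminf_le_of_frequently_le' (Frequently.of_forall fun n => ?_)
    rw [← ofReal_integral_eq_lintegral_ofReal (hint n) (Eventually.of_forall (h0 n))]
    exact ENNReal.ofReal_le_ofReal (hC n)
  have hg : Integrable g μ :=
    ⟨hm, (hasFiniteIntegral_iff_ofReal (Eventually.of_forall hg0)).mpr
      (h1.trans_lt ENNReal.ofReal_lt_top)⟩
  refine ⟨hg, ?_⟩
  rw [← ofReal_integral_eq_lintegral_ofReal hg (Eventually.of_forall hg0)] at h1
  exact (ENNReal.ofReal_le_ofReal_iff hC0).mp h1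

/-- The Coulomb attraction felt by one electron. -/
noncomputable def Vpot {K : ℕ} (z : Fin K → ℝ) (P : Fin K → E3) (y : E3) : ℝ :=
  ∑ j, z j / dist y (P j)

theorem onebody {K N : ℕ} {z : Fin K → ℝ} (hz : ∀ j, 0 ≤ z j) (P : Fin K → E3) {a : ℝ}
    (ha : 0 < a) {φ : Conf N → ℂ} (hφ : ContDiff ℝ 1 φ) (hc : HasCompactSupport φ) (i : Fin N) :
    Integrable (fun x : Conf N => Vpot z P (x i) * ‖φ x‖ ^ 2) ∧
    ∫ x, Vpot z P (x i) * ‖φ x‖ ^ 2 ≤
      (∫ x, kin φ i x) + ∫ x, cost z P a (x i) * ‖φ x‖ ^ 2 := by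
  let δ : ℕ → ℝ := fun n => a * (1 / ((n : ℝ) + 1))
  have hδ : ∀ n, 0 < δ n := fun n => by positivity
  have hδa : ∀ n, δ n ≤ a := fun n => by
    have : 1 / ((n : ℝ) + 1) ≤ 1 := by
      rw [div_le_one (by positivity)]; linarith [Nat.cast_nonneg (α := ℝ) n]
    simpa [δ] using mul_le_mul_of_nonneg_left this ha.le
  have hδ0 : Tendsto δ atTop (𝓝 0) := by
    simpa [δ] using (tendsto_one_div_add_atTop_nhds_zero_nat (𝕜 := ℝ)).const_mul a
  let v : ℕ → E3 → ℝ := fun n y => ∑ j, z j * (‖y - P j‖ / (‖y - P j‖ ^ 2 + δ n ^ 2))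
  have hvc : ∀ n, Continuous (v n) := fun n => continuous_finsetSum _ fun j _ =>
    continuous_const.mul (Continuous.div (by fun_prop) (by fun_prop) fun y => by
      have := hδ n; positivity)
  have hvG : ∀ n y, v n y ≤ GG z P (δ n) y := by
    intro n y
    refine Finset.sum_le_sum fun j _ => ?_
    rw [div_eq_mul_one_div (z j)]
    refine mul_le_mul_of_nonneg_left ?_ (hz j)
    have h1 := sr_pos (hδ n) (y - P j)
    rw [← sr_sq, div_le_div_iff₀ (by positivity) h1]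
    nlinarith [norm_le_sr (δ n) (y - P j)]
  have hint : ∀ n, Integrable fun x : Conf N => v n (x i) * ‖φ x‖ ^ 2 := fun n =>
    integrable_mul_norm_sq hφ.continuous hc ((hvc n).comp (continuous_apply i))
  refine fatou_real (f := fun n x => v n (x i) * ‖φ x‖ ^ 2) (fun n x => ?_) hint (fun x => ?_)
    fun n => ?_
  · refine mul_nonneg (Finset.sum_nonneg fun j _ => mul_nonneg (hz j) ?_) (by positivity)
    positivity
  · refine Tendsto.mul_const _ (tendsto_finsetSum _ fun j _ => ?_)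
    rw [div_eq_mul_one_div (z j), dist_eq_norm]
    refine Tendsto.const_mul _ ?_
    rcases eq_or_ne ‖x i - P j‖ 0 with h0 | h0
    · simp [h0]
    · have h1 : Tendsto (fun n => ‖x i - P j‖ / (‖x i - P j‖ ^ 2 + δ n ^ 2)) atTop
          (𝓝 (‖x i - P j‖ / (‖x i - P j‖ ^ 2 + 0 ^ 2))) :=
        tendsto_const_nhds.div (tendsto_const_nhds.add (hδ0.pow 2)) (by simpa using h0)
      convert h1 using 2
      field_simp
      ring
  · have h1 := onebody_reg hz P (hδ n) (hδa n) hφ hc i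
    have i1 : Integrable fun x : Conf N => GG z P (δ n) (x i) * ‖φ x‖ ^ 2 :=
      integrable_mul_norm_sq hφ.continuous hc
        ((continuous_GG z P (hδ n)).comp (continuous_apply i))
    have i2 : Integrable fun x : Conf N => cost z P a (x i) * ‖φ x‖ ^ 2 :=
      integrable_mul_norm_sq hφ.continuous hc
        ((continuous_cost z P ha).comp (continuous_apply i))
    simp only [sub_mul] at h1
    rw [integral_sub i1 i2] at h1
    have h2 : ∫ x : Conf N, v n (x i) * ‖φ x‖ ^ 2 ≤ ∫ x : Conf N, GG z P (δ n) (x i) * ‖φ x‖ ^ 2 :=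
      integral_mono (hint n) i1 fun x => mul_le_mul_of_nonneg_right (hvG n (x i)) (by positivity)
    linarith

/-- The energy density of one spin component of a two-electron wave function. -/
noncomputable def dens {K : ℕ} (z : Fin K → ℝ) (P : Fin K → E3) (φ : Conf 2 → ℂ) (x : Conf 2) : ℝ :=
  (∑ i, kin φ i x) + (∑ i, ∑ i' ∈ Finset.Ioi i, 1 / dist (x i) (x i')
    - ∑ i, Vpot z P (x i)) * ‖φ x‖ ^ 2

theorem dens_eq {K : ℕ} (z : Fin K → ℝ) (P : Fin K → E3) (φ : Conf 2 → ℂ) (x : Conf 2) :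
    dens z P φ x = kin φ 0 x + kin φ 1 x +
      (1 / dist (x 0) (x 1) - Vpot z P (x 0) - Vpot z P (x 1)) * ‖φ x‖ ^ 2 := by
  have h0 : Finset.Ioi (0 : Fin 2) = {1} := by decide
  have h1 : Finset.Ioi (1 : Fin 2) = ∅ := by decide
  simp only [dens, Fin.sum_univ_two, h0, h1, Finset.sum_singleton, Finset.sum_empty]
  ring

theorem ae_ne_diag : ∀ᵐ x : Conf 2, x 0 ≠ x 1 := by
  let S : Submodule ℝ (Conf 2) :=
    LinearMap.ker ((LinearMap.proj 0 : Conf 2 →ₗ[ℝ] E3) - LinearMap.proj 1)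
  have hS : S ≠ ⊤ := by
    intro h
    have : (Pi.single 0 (EuclideanSpace.single 0 (1 : ℝ)) : Conf 2) ∈ S := h ▸ Submodule.mem_top
    simp [S] at this
  have h0 := Measure.addHaar_submodule (volume : Measure (Conf 2)) S hS
  rw [ae_iff]
  convert h0 using 2
  ext x
  simp [S, sub_eq_zero]

theorem lower_component {K : ℕ} {z : Fin K → ℝ} (hz : ∀ j, 0 ≤ z j) (P : Fin K → E3) {a C : ℝ}
    (ha : 0 < a) (hC0 : 0 ≤ C)
    (hC : ∀ y₀ y₁ : E3, y₀ ≠ y₁ → cost z P a y₀ + cost z P a y₁ - 1 / dist y₀ y₁ ≤ C)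
    {φ : Conf 2 → ℂ} (hφ : ContDiff ℝ 1 φ) (hc : HasCompactSupport φ) :
    -C * ∫ x, ‖φ x‖ ^ 2 ≤ ∫ x, dens z P φ x := by
  by_cases hint : Integrable (dens z P φ)
  swap
  · rw [integral_undef hint]
    have : 0 ≤ ∫ x, ‖φ x‖ ^ 2 := integral_nonneg fun x => by positivity
    nlinarith
  obtain ⟨iV0, hV0⟩ := onebody hz P ha hφ hc 0
  obtain ⟨iV1, hV1⟩ := onebody hz P ha hφ hc 1
  have iK0 := integrable_kin hφ hc 0
  have iK1 := integrable_kin hφ hc 1
  have ic : ∀ i, Integrable fun x : Conf 2 => cost z P a (x i) * ‖φ x‖ ^ 2 := fun i =>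
    integrable_mul_norm_sq hφ.continuous hc ((continuous_cost z P ha).comp (continuous_apply i))
  have iN : Integrable fun x : Conf 2 => C * ‖φ x‖ ^ 2 :=
    integrable_mul_norm_sq hφ.continuous hc continuous_const
  have j0 : Integrable fun x : Conf 2 =>
      kin φ 0 x + cost z P a (x 0) * ‖φ x‖ ^ 2 := iK0.add (ic 0)
  have j1 : Integrable fun x : Conf 2 =>
      kin φ 1 x + cost z P a (x 1) * ‖φ x‖ ^ 2 := iK1.add (ic 1)
  have k0 : Integrable fun x : Conf 2 =>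
      kin φ 0 x + cost z P a (x 0) * ‖φ x‖ ^ 2 - Vpot z P (x 0) * ‖φ x‖ ^ 2 := j0.sub iV0
  have k1 : Integrable fun x : Conf 2 =>
      kin φ 1 x + cost z P a (x 1) * ‖φ x‖ ^ 2 - Vpot z P (x 1) * ‖φ x‖ ^ 2 := j1.sub iV1
  have l : Integrable fun x : Conf 2 =>
      (kin φ 0 x + cost z P a (x 0) * ‖φ x‖ ^ 2 - Vpot z P (x 0) * ‖φ x‖ ^ 2) +
      (kin φ 1 x + cost z P a (x 1) * ‖φ x‖ ^ 2 - Vpot z P (x 1) * ‖φ x‖ ^ 2) := k0.add k1
  have m : Integrable fun x : Conf 2 =>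
      (kin φ 0 x + cost z P a (x 0) * ‖φ x‖ ^ 2 - Vpot z P (x 0) * ‖φ x‖ ^ 2) +
      (kin φ 1 x + cost z P a (x 1) * ‖φ x‖ ^ 2 - Vpot z P (x 1) * ‖φ x‖ ^ 2)
      - C * ‖φ x‖ ^ 2 := l.sub iN
  have hle := integral_mono_ae m hint (by
    filter_upwards [ae_ne_diag] with x hx
    rw [dens_eq]
    have h1 := mul_le_mul_of_nonneg_right (hC _ _ hx) (sq_nonneg ‖φ x‖)
    nlinarith)
  rw [integral_sub l iN, integral_add k0 k1, integral_sub j0 iV0, integral_sub j1 iV1,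
    integral_add iK0 (ic 0), integral_add iK1 (ic 1), integral_const_mul] at hle
  linarith

end Pool.Agent.MP_cba161_mp

end

-- part MP_cba161_mp.Trial
section

/-!
A smooth compactly supported one-electron trial function (a cut-off Gaussian).
-/

set_option autoImplicit false

open MeasureTheory Filter Topology Set

namespace Pool.Agent.MP_cba161_mp

theorem radial {c : ℝ} (hc : 0 < c) {s : ℝ} (hs : -3 < s) :
    Integrable (fun y : E3 => ‖y‖ ^ s * Real.exp (-c * ‖y‖ ^ 2)) ∧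
    ∫ y : E3, ‖y‖ ^ s * Real.exp (-c * ‖y‖ ^ 2) = 3 * (volume : Measure E3).real (Metric.ball 0 1) *
      (c ^ (-(s + 3) / 2) * (1 / 2) * Real.Gamma ((s + 3) / 2)) := by
  have hdim : Module.finrank ℝ E3 = 3 := by simp
  have heq : EqOn (fun r : ℝ => r ^ (Module.finrank ℝ E3 - 1) • (r ^ s * Real.exp (-c * r ^ 2)))
      (fun r : ℝ => r ^ (s + 2) * Real.exp (-c * r ^ 2)) (Ioi 0) := by
    intro r hr
    have hr' : (0 : ℝ) < r := hr
    simp only [hdim, smul_eq_mul]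
    rw [Real.rpow_add hr', Real.rpow_two]
    ring
  constructor
  · rw [integrable_fun_norm_addHaar volume (f := fun r : ℝ => r ^ s * Real.exp (-c * r ^ 2)),
      integrableOn_congr_fun heq measurableSet_Ioi]
    exact integrableOn_rpow_mul_exp_neg_mul_sq hc (by linarith)
  · rw [integral_fun_norm_addHaar volume (fun r : ℝ => r ^ s * Real.exp (-c * r ^ 2)),
      setIntegral_congr_fun measurableSet_Ioi heq]
    have h := integral_rpow_mul_exp_neg_mul_rpow (p := 2) (q := s + 2) (b := c) (by norm_num)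
      (by linarith) hc
    simp only [Real.rpow_two] at h
    rw [h, hdim, show s + 2 + 1 = s + 3 by ring]
    simp only [nsmul_eq_mul, smul_eq_mul, Nat.cast_ofNat]
    ring

theorem gauss_energy {ζ : ℝ} (hζ : 0 < ζ) :
    Integrable (fun y : E3 => ‖y‖ ^ 2 * Real.exp (-(2 / 5 * ζ) ^ 2 * ‖y‖ ^ 2)) ∧
    Integrable (fun y : E3 => Real.exp (-(2 / 5 * ζ) ^ 2 * ‖y‖ ^ 2)) ∧
    Integrable (fun y : E3 => ‖y‖⁻¹ * Real.exp (-(2 / 5 * ζ) ^ 2 * ‖y‖ ^ 2)) ∧
    ∫ y : E3, (((2 / 5 * ζ) ^ 2) ^ 2 * ‖y‖ ^ 2 - ζ * ‖y‖⁻¹ + 9 / 50 * ζ ^ 2) *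
      Real.exp (-(2 / 5 * ζ) ^ 2 * ‖y‖ ^ 2) < 0 := by
  set τ := 2 / 5 * ζ with hτ
  have hτ0 : 0 < τ := by positivity
  have hc : 0 < τ ^ 2 := by positivity
  obtain ⟨i2, e2⟩ := radial hc (s := 2) (by norm_num)
  obtain ⟨i0, e0⟩ := radial hc (s := 0) (by norm_num)
  obtain ⟨i1, e1⟩ := radial hc (s := -1) (by norm_num)
  simp only [Real.rpow_two] at i2 e2
  simp only [Real.rpow_zero, one_mul] at i0 e0
  simp only [Real.rpow_neg_one] at i1 e1
  refine ⟨i2, i0, i1, ?_⟩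
  have hpow : ∀ m : ℕ, (τ ^ 2) ^ (-(m : ℝ) / 2) = (τ ^ m)⁻¹ := by
    intro m
    rw [← Real.rpow_two, ← Real.rpow_mul hτ0.le, ← Real.rpow_natCast, ← Real.rpow_neg hτ0.le]
    congr 1; ring
  have g1 : Real.Gamma ((-1 + 3) / 2) = 1 := by
    rw [show ((-1 : ℝ) + 3) / 2 = 1 by norm_num, Real.Gamma_one]
  have g3 : Real.Gamma ((0 + 3) / 2) = √Real.pi / 2 := by
    rw [show ((0 : ℝ) + 3) / 2 = 1 / 2 + 1 by norm_num, Real.Gamma_add_one (by norm_num),
      Real.Gamma_one_half_eq]; ring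
  have g5 : Real.Gamma ((2 + 3) / 2) = 3 * √Real.pi / 4 := by
    rw [show ((2 : ℝ) + 3) / 2 = (0 + 3) / 2 + 1 by norm_num, Real.Gamma_add_one (by norm_num), g3]
    ring
  rw [g5, show -((2 : ℝ) + 3) / 2 = -((5 : ℕ) : ℝ) / 2 by norm_num, hpow] at e2
  rw [g3, show -((0 : ℝ) + 3) / 2 = -((3 : ℕ) : ℝ) / 2 by norm_num, hpow] at e0
  rw [g1, show -((-1 : ℝ) + 3) / 2 = -((2 : ℕ) : ℝ) / 2 by norm_num, hpow] at e1
  have j2 : Integrable fun y : E3 => (τ ^ 2) ^ 2 * (‖y‖ ^ 2 * Real.exp (-τ ^ 2 * ‖y‖ ^ 2)) :=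
    i2.const_mul _
  have j1 : Integrable fun y : E3 => ζ * (‖y‖⁻¹ * Real.exp (-τ ^ 2 * ‖y‖ ^ 2)) := i1.const_mul _
  have j0 : Integrable fun y : E3 => 9 / 50 * ζ ^ 2 * Real.exp (-τ ^ 2 * ‖y‖ ^ 2) := i0.const_mul _
  have j21 : Integrable fun y : E3 => (τ ^ 2) ^ 2 * (‖y‖ ^ 2 * Real.exp (-τ ^ 2 * ‖y‖ ^ 2))
      - ζ * (‖y‖⁻¹ * Real.exp (-τ ^ 2 * ‖y‖ ^ 2)) := j2.sub j1
  have hsplit : (fun y : E3 => ((τ ^ 2) ^ 2 * ‖y‖ ^ 2 - ζ * ‖y‖⁻¹ + 9 / 50 * ζ ^ 2) *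
      Real.exp (-τ ^ 2 * ‖y‖ ^ 2)) = fun y : E3 =>
      ((τ ^ 2) ^ 2 * (‖y‖ ^ 2 * Real.exp (-τ ^ 2 * ‖y‖ ^ 2))
      - ζ * (‖y‖⁻¹ * Real.exp (-τ ^ 2 * ‖y‖ ^ 2))) +
        9 / 50 * ζ ^ 2 * Real.exp (-τ ^ 2 * ‖y‖ ^ 2) := by
    funext y; ring
  rw [hsplit, integral_add j21 j0, integral_sub j2 j1, integral_const_mul, integral_const_mul,
    integral_const_mul, e2, e0, e1]
  have hv : 0 < (volume : Measure E3).real (Metric.ball 0 1) :=
    ENNReal.toReal_pos (Metric.measure_ball_pos volume _ one_pos).ne' measure_ball_lt_top.ne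
  set v := (volume : Measure E3).real (Metric.ball 0 1)
  have hpi : √Real.pi < 9 / 5 := by
    rw [Real.sqrt_lt' (by norm_num)]
    linarith [Real.pi_lt_d2]
  have hζτ : ζ = 5 / 2 * τ := by rw [hτ]; ring
  have : (τ ^ 2) ^ 2 * (3 * v * ((τ ^ 5)⁻¹ * (1 / 2) * (3 * √Real.pi / 4))) -
      ζ * (3 * v * ((τ ^ 2)⁻¹ * (1 / 2) * 1)) +
      9 / 50 * ζ ^ 2 * (3 * v * ((τ ^ 3)⁻¹ * (1 / 2) * (√Real.pi / 2)))
      = 3 * v / τ * (21 / 32 * √Real.pi - 5 / 4) := by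
    rw [hζτ]; field_simp; ring
  rw [this]
  exact mul_neg_of_pos_of_neg (by positivity) (by linarith)

/-- One-electron kinetic energy density of a real function. -/
noncomputable def kin1 (φ : E3 → ℝ) (y : E3) : ℝ :=
  ∑ k : Fin 3, (fderiv ℝ φ y (EuclideanSpace.single k (1 : ℝ))) ^ 2

theorem exists_trial0 {ζ : ℝ} (hζ : 0 < ζ) :
    ∃ φ : E3 → ℝ, ContDiff ℝ (⊤ : ℕ∞) φ ∧ HasCompactSupport φ ∧ φ 0 ≠ 0 ∧
      Integrable (fun y => ‖y‖⁻¹ * φ y ^ 2) ∧
      ∫ y, (kin1 φ y - ζ * (‖y‖⁻¹ * φ y ^ 2) + 9 / 50 * ζ ^ 2 * φ y ^ 2) < 0 := by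
  obtain ⟨i2, i0, i1, hneg⟩ := gauss_energy hζ
  set c := (2 / 5 * ζ) ^ 2 with hc
  let g : E3 → ℝ := fun y => Real.exp (-(c / 2) * ‖y‖ ^ 2)
  have hg2 : ∀ y, g y ^ 2 = Real.exp (-c * ‖y‖ ^ 2) := by
    intro y; simp only [g]; rw [← Real.exp_nat_mul]; congr 1; push_cast; ring
  have hgs : ContDiff ℝ (⊤ : ℕ∞) g :=
    Real.contDiff_exp.comp (contDiff_const.mul (contDiff_norm_sq ℝ))
  have hgd : ∀ y v, fderiv ℝ g y v = -c * inner ℝ y v * g y := by
    intro y v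
    have h1 := (((hasStrictFDerivAt_norm_sq y).hasFDerivAt).const_mul (-(c / 2))).exp
    rw [h1.fderiv]
    simp [g]
    ring
  have hgk : ∀ y, kin1 g y = c ^ 2 * ‖y‖ ^ 2 * g y ^ 2 := by
    intro y
    simp only [kin1, hgd, EuclideanSpace.inner_single_right, one_mul, conj_trivial, mul_pow,
      ← sum_sq_coord, Finset.mul_sum, Finset.sum_mul, neg_sq]
  let χ : ContDiffBump (0 : E3) := ⟨1, 2, one_pos, one_lt_two⟩
  obtain ⟨B, hB⟩ := (χ.hasCompactSupport.fderiv ℝ).exists_bound_of_continuous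
    ((χ.contDiff (n := 1)).continuous_fderiv (by norm_num))
  let χn : ℕ → E3 → ℝ := fun n y => χ ((1 / ((n : ℝ) + 1)) • y)
  have hχs : ∀ n, ContDiff ℝ (⊤ : ℕ∞) (χn n) := fun n =>
    χ.contDiff.comp (contDiff_id.const_smul _)
  have hχc : ∀ n, HasCompactSupport (χn n) := fun n =>
    χ.hasCompactSupport.comp_smul (by positivity)
  have hχd : ∀ n y k, |fderiv ℝ (χn n) y (EuclideanSpace.single k (1 : ℝ))| ≤ B := by
    intro n y k
    have h0 : HasFDerivAt (fun w : E3 => (1 / ((n : ℝ) + 1)) • w)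
        ((1 / ((n : ℝ) + 1)) • ContinuousLinearMap.id ℝ E3) y :=
      (hasFDerivAt_id y).const_smul (1 / ((n : ℝ) + 1))
    have h1 : HasFDerivAt (χn n) ((fderiv ℝ χ ((1 / ((n : ℝ) + 1)) • y)).comp
        ((1 / ((n : ℝ) + 1)) • ContinuousLinearMap.id ℝ E3)) y :=
      ((χ.contDiff (n := 1)).differentiable (by norm_num) _).hasFDerivAt.comp y h0
    rw [h1.fderiv, ← Real.norm_eq_abs]
    have hn : 1 / ((n : ℝ) + 1) ≤ 1 := by
      rw [div_le_one (by positivity)]; linarith [Nat.cast_nonneg (α := ℝ) n]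
    have hB0 : 0 ≤ B := (norm_nonneg _).trans (hB 0)
    simp only [ContinuousLinearMap.comp_apply, smul_apply, ContinuousLinearMap.id_apply]
    refine (ContinuousLinearMap.le_opNorm _ _).trans ?_
    rw [norm_smul, PiLp.norm_single, norm_one, mul_one,
      Real.norm_of_nonneg (by positivity)]
    calc _ ≤ B * 1 := mul_le_mul (hB _) hn (by positivity) hB0
      _ = B := mul_one B
  let φ : ℕ → E3 → ℝ := fun n y => χn n y * g y
  have hφs : ∀ n, ContDiff ℝ (⊤ : ℕ∞) (φ n) := fun n => (hχs n).mul hgs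
  have hφ2 : ∀ n y, φ n y ^ 2 ≤ g y ^ 2 := by
    intro n y
    have h1 : χn n y ^ 2 ≤ 1 := pow_le_one₀ χ.nonneg χ.le_one
    simp only [φ, mul_pow]
    nlinarith [sq_nonneg (g y)]
  have hφk : ∀ n y, kin1 (φ n) y ≤ 2 * kin1 g y + 6 * B ^ 2 * g y ^ 2 := by
    intro n y
    have h1 : ∀ k : Fin 3, (fderiv ℝ (φ n) y (EuclideanSpace.single k (1 : ℝ))) ^ 2 ≤
        2 * (fderiv ℝ g y (EuclideanSpace.single k (1 : ℝ))) ^ 2 + 2 * B ^ 2 * g y ^ 2 := by
      intro k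
      have h2 := (((hχs n).differentiable (by simp) y).hasFDerivAt.fun_mul
        (hgs.differentiable (by simp) y).hasFDerivAt).fderiv
      have h3 : fderiv ℝ (φ n) y (EuclideanSpace.single k (1 : ℝ)) =
          χn n y * fderiv ℝ g y (EuclideanSpace.single k (1 : ℝ)) +
          g y * fderiv ℝ (χn n) y (EuclideanSpace.single k (1 : ℝ)) := by
        simp only [φ]; rw [h2]; simp
      rw [h3]
      have h4 : χn n y ^ 2 ≤ 1 := pow_le_one₀ χ.nonneg χ.le_one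
      have h5 : (fderiv ℝ (χn n) y (EuclideanSpace.single k (1 : ℝ))) ^ 2 ≤ B ^ 2 := by
        rw [← sq_abs]; exact pow_le_pow_left₀ (abs_nonneg _) (hχd n y k) 2
      generalize fderiv ℝ g y (EuclideanSpace.single k (1 : ℝ)) = u at *
      generalize fderiv ℝ (χn n) y (EuclideanSpace.single k (1 : ℝ)) = w at *
      nlinarith [sq_nonneg (χn n y * u - g y * w), mul_le_mul_of_nonneg_right h4 (sq_nonneg u),
        mul_le_mul_of_nonneg_right h5 (sq_nonneg (g y))]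
    have := Finset.sum_le_sum fun k (_ : k ∈ Finset.univ) => h1 k
    simp only [Finset.sum_add_distrib, ← Finset.mul_sum, Finset.sum_const, Finset.card_univ,
      Fintype.card_fin, nsmul_eq_mul, Nat.cast_ofNat] at this
    unfold kin1
    linarith
  have hkc : ∀ n, Continuous (kin1 (φ n)) := fun n => continuous_finsetSum _ fun k _ =>
    (((hφs n).continuous_fderiv (by simp)).clm_apply continuous_const).pow 2
  have hlim : Tendsto (fun n => ∫ y, (kin1 (φ n) y - ζ * (‖y‖⁻¹ * φ n y ^ 2)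
      + 9 / 50 * ζ ^ 2 * φ n y ^ 2)) atTop
      (𝓝 (∫ y : E3, (c ^ 2 * ‖y‖ ^ 2 - ζ * ‖y‖⁻¹ + 9 / 50 * ζ ^ 2) * Real.exp (-c * ‖y‖ ^ 2))) := by
    refine tendsto_integral_of_dominated_convergence
      (fun y => 2 * c ^ 2 * (‖y‖ ^ 2 * Real.exp (-c * ‖y‖ ^ 2)) +
        ζ * (‖y‖⁻¹ * Real.exp (-c * ‖y‖ ^ 2)) +
        (6 * B ^ 2 + 9 / 50 * ζ ^ 2) * Real.exp (-c * ‖y‖ ^ 2)) (fun n => ?_)
      (((i2.const_mul _).add (i1.const_mul _)).add (i0.const_mul _))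
      (fun n => Eventually.of_forall fun y => ?_) (Eventually.of_forall fun y => ?_)
    · have m1 := (hkc n).measurable
      have m2 := (hφs n).continuous.measurable
      exact Measurable.aestronglyMeasurable (by fun_prop)
    · have h1 := hφk n y
      have h2 := hφ2 n y
      have h3 : 0 ≤ kin1 (φ n) y := Finset.sum_nonneg fun k _ => sq_nonneg _
      rw [hgk, hg2] at h1
      rw [hg2] at h2
      have h4 : ζ * (‖y‖⁻¹ * φ n y ^ 2) ≤ ζ * (‖y‖⁻¹ * Real.exp (-c * ‖y‖ ^ 2)) := by gcongr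
      have h5 : 9 / 50 * ζ ^ 2 * φ n y ^ 2 ≤ 9 / 50 * ζ ^ 2 * Real.exp (-c * ‖y‖ ^ 2) := by gcongr
      have h6 : 0 ≤ ζ * (‖y‖⁻¹ * φ n y ^ 2) := by positivity
      have h7 : 0 ≤ 9 / 50 * ζ ^ 2 * φ n y ^ 2 := by positivity
      have h8 : 0 ≤ 2 * c ^ 2 * (‖y‖ ^ 2 * Real.exp (-c * ‖y‖ ^ 2)) := by positivity
      have h9 : 0 ≤ 6 * B ^ 2 * Real.exp (-c * ‖y‖ ^ 2) := by positivity
      rw [Real.norm_eq_abs, abs_le]
      constructor <;> nlinarith
    · refine tendsto_const_nhds.congr' ?_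
      filter_upwards [eventually_gt_atTop ⌈‖y‖⌉₊] with n hn
      have hy : ‖y‖ < (n : ℝ) + 1 := by
        have h1 := Nat.le_ceil ‖y‖
        have h2 : (⌈‖y‖⌉₊ : ℝ) < n := by exact_mod_cast hn
        linarith
      have hev : φ n =ᶠ[𝓝 y] g := by
        filter_upwards [Metric.isOpen_ball.mem_nhds (mem_ball_zero_iff.mpr hy)] with w hw
        have h1 : χn n w = 1 := χ.one_of_mem_closedBall (by
          rw [mem_closedBall_zero_iff, norm_smul, Real.norm_of_nonneg (by positivity)]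
          have := mem_ball_zero_iff.mp hw
          change _ ≤ 1
          rw [one_div, inv_mul_le_iff₀ (by positivity)]
          linarith)
        simp [φ, h1]
      have h1 : kin1 (φ n) y = kin1 g y := by unfold kin1; rw [hev.fderiv_eq]
      rw [h1, hev.eq_of_nhds, hgk, hg2]
      ring
  obtain ⟨n, hn⟩ := (hlim.eventually (gt_mem_nhds hneg)).exists
  refine ⟨φ n, hφs n, (hχc n).mul_right, ?_, ?_, hn⟩
  · have h1 : χn n 0 = 1 := χ.one_of_mem_closedBall (by simp [χ])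
    simp [φ, h1, g]
  · refine i1.mono' ?_ (Eventually.of_forall fun y => ?_)
    · have m2 := (hφs n).continuous.measurable
      exact Measurable.aestronglyMeasurable (by fun_prop)
    · rw [Real.norm_of_nonneg (by positivity), ← hg2]
      exact mul_le_mul_of_nonneg_left (hφ2 n y) (by positivity)

theorem integrable_kin1 {φ : E3 → ℝ} (hφ : ContDiff ℝ (⊤ : ℕ∞) φ) (hc : HasCompactSupport φ) :
    Integrable (kin1 φ) := by
  refine integrable_finsetSum _ fun k _ => ?_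
  have h1 : Continuous fun y => (fderiv ℝ φ y (EuclideanSpace.single k (1 : ℝ))) ^ 2 :=
    ((hφ.continuous_fderiv (by simp)).clm_apply continuous_const).pow 2
  have h2 : HasCompactSupport fun y => (fderiv ℝ φ y (EuclideanSpace.single k (1 : ℝ))) ^ 2 :=
    (hc.fderiv_apply (𝕜 := ℝ) _).comp_left (g := fun w : ℝ => w ^ 2) (by simp)
  exact h1.integrable_of_hasCompactSupport h2

theorem integrable_sq {φ : E3 → ℝ} (hφ : Continuous φ) (hc : HasCompactSupport φ) :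
    Integrable fun y => φ y ^ 2 := by
  have h1 : Continuous fun y => φ y ^ 2 := hφ.pow 2
  have h2 : HasCompactSupport fun y => φ y ^ 2 := hc.comp_left (g := fun w : ℝ => w ^ 2) (by simp)
  exact h1.integrable_of_hasCompactSupport h2

theorem exists_trial {ζ : ℝ} (hζ : 0 < ζ) :
    ∃ φ : E3 → ℝ, ContDiff ℝ (⊤ : ℕ∞) φ ∧ HasCompactSupport φ ∧ ∫ y, φ y ^ 2 = 1 ∧
      Integrable (fun y => ‖y‖⁻¹ * φ y ^ 2) ∧
      (∫ y, kin1 φ y) - ζ * ∫ y, ‖y‖⁻¹ * φ y ^ 2 ≤ -(9 / 50 * ζ ^ 2) := by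
  obtain ⟨φ, hs, hc, h0, hi, hneg⟩ := exists_trial0 hζ
  have iK := integrable_kin1 hs hc
  have iN := integrable_sq hs.continuous hc
  have hN : 0 < ∫ y, φ y ^ 2 := by
    have h1 : Continuous fun y => φ y ^ 2 := hs.continuous.pow 2
    have h2 : HasCompactSupport fun y => φ y ^ 2 := hc.comp_left (g := fun w : ℝ => w ^ 2) (by simp)
    exact h1.integral_pos_of_hasCompactSupport_nonneg_nonzero h2 (fun y => sq_nonneg _)
      (pow_ne_zero 2 h0)
  have j1 : Integrable fun y => ζ * (‖y‖⁻¹ * φ y ^ 2) := hi.const_mul _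
  have j2 : Integrable fun y => kin1 φ y - ζ * (‖y‖⁻¹ * φ y ^ 2) := iK.sub j1
  have j3 : Integrable fun y => 9 / 50 * ζ ^ 2 * φ y ^ 2 := iN.const_mul _
  rw [integral_add j2 j3, integral_sub iK j1, integral_const_mul, integral_const_mul] at hneg
  set N := ∫ y, φ y ^ 2
  let a : ℝ := (√N)⁻¹
  have ha : a ^ 2 = N⁻¹ := by simp only [a, inv_pow, Real.sq_sqrt hN.le]
  have hk : ∀ y, kin1 (fun y => a * φ y) y = a ^ 2 * kin1 φ y := by
    intro y
    unfold kin1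
    rw [((hs.differentiable (by simp) y).hasFDerivAt.const_mul a).fderiv, Finset.mul_sum]
    simp [mul_pow]
  refine ⟨fun y => a * φ y, contDiff_const.mul hs, hc.mul_left, ?_, ?_, ?_⟩
  · simp only [mul_pow]
    rw [integral_const_mul, ha, inv_mul_cancel₀ hN.ne']
  · simp only [mul_pow, mul_left_comm _ (a ^ 2)]
    exact hi.const_mul _
  · simp only [hk, mul_pow, mul_left_comm _ (a ^ 2)]
    rw [integral_const_mul, integral_const_mul, ha]
    have : N⁻¹ * (∫ y, kin1 φ y) - ζ * (N⁻¹ * ∫ y, ‖y‖⁻¹ * φ y ^ 2)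
        = N⁻¹ * ((∫ y, kin1 φ y) - ζ * ∫ y, ‖y‖⁻¹ * φ y ^ 2) := by ring
    rw [this, inv_mul_le_iff₀ hN]
    linarith

end Pool.Agent.MP_cba161_mp

end

-- part MP_cba161_mp.Upper
section

/-!
The two-electron trial state and the two-sided estimates on the set of energies.
-/

set_option autoImplicit false

open MeasureTheory Filter Topology Set

namespace Pool.Agent.MP_cba161_mp

/-- The set of energies of admissible two-electron states. -/
def eset {K : ℕ} (z : Fin K → ℝ) (P : Fin K → E3) : Set ℝ :=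
  {E : ℝ | ∃ ψ : Conf 2 → (Fin 2 → Fin 2) → ℂ,
    (∀ σ : Fin 2 → Fin 2, ContDiff ℝ (⊤ : ℕ∞) (fun y => ψ y σ)) ∧
    (∀ σ : Fin 2 → Fin 2, HasCompactSupport (fun y => ψ y σ)) ∧
    (∀ π : Equiv.Perm (Fin 2), ∀ x σ,
      ψ (fun i => x (π i)) (fun i => σ (π i)) = ((Equiv.Perm.sign π : ℤ) : ℂ) * ψ x σ) ∧
    (∑ σ : Fin 2 → Fin 2, ∫ x, ‖ψ x σ‖ ^ 2) = 1 ∧
    E = ∑ σ : Fin 2 → Fin 2, ∫ x, dens z P (fun y => ψ y σ) x}

theorem lower_eset {K : ℕ} {z : Fin K → ℝ} (hz : ∀ j, 0 ≤ z j) (P : Fin K → E3) {a C : ℝ}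
    (ha : 0 < a) (hC0 : 0 ≤ C)
    (hC : ∀ y₀ y₁ : E3, y₀ ≠ y₁ → cost z P a y₀ + cost z P a y₁ - 1 / dist y₀ y₁ ≤ C) :
    ∀ E ∈ eset z P, -C ≤ E := by
  rintro E ⟨ψ, hs, hc, -, hn, rfl⟩
  calc -C = ∑ σ : Fin 2 → Fin 2, -C * ∫ x, ‖ψ x σ‖ ^ 2 := by rw [← Finset.mul_sum, hn, mul_one]
    _ ≤ _ := Finset.sum_le_sum fun σ _ =>
      lower_component hz P ha hC0 hC ((hs σ).of_le (by simp)) (hc σ)

theorem bddBelow_eset {K : ℕ} {z : Fin K → ℝ} (hz : ∀ j, 0 ≤ z j) (P : Fin K → E3) :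
    BddBelow (eset z P) := by
  have hG : ∀ y, GG z P 1 y ≤ ∑ j, z j := fun y => Finset.sum_le_sum fun j _ =>
    div_le_self (hz j) (le_sr 1 _)
  have hZ : 0 ≤ ∑ j, z j := Finset.sum_nonneg fun j _ => hz j
  have hc : ∀ y, cost z P 1 y ≤ 3 / 2 * (∑ j, z j) + (1 * (∑ j, z j) / 2) ^ 2 := by
    intro y
    have := GG_nonneg hz P 1 y
    have := hG y
    unfold cost
    gcongr
  refine ⟨-(2 * (3 / 2 * (∑ j, z j) + (1 * (∑ j, z j) / 2) ^ 2)), ?_⟩
  refine lower_eset hz P one_pos (by positivity) fun y₀ y₁ _ => ?_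
  have : 0 ≤ 1 / dist y₀ y₁ := by positivity
  linarith [hc y₀, hc y₁]

/-- A normalised one-electron function with low energy around the point `Q`. -/
def Good (ζ : ℝ) (Q : E3) (f : E3 → ℝ) : Prop :=
  ContDiff ℝ (⊤ : ℕ∞) f ∧ HasCompactSupport f ∧ ∫ y, f y ^ 2 = 1 ∧
    Integrable (fun y => ‖y - Q‖⁻¹ * f y ^ 2) ∧
    (∫ y, kin1 f y) - ζ * ∫ y, ‖y - Q‖⁻¹ * f y ^ 2 ≤ -(9 / 50 * ζ ^ 2)

theorem exists_good {ζ : ℝ} (hζ : 0 < ζ) :
    ∃ ρ : ℝ, ∀ Q : E3, ∃ f, Good ζ Q f ∧ ∀ y, f y ≠ 0 → dist y Q ≤ ρ := by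
  obtain ⟨φ, hs, hc, hn, hi, hE⟩ := exists_trial hζ
  obtain ⟨ρ, hρ⟩ := hc.isCompact.isBounded.subset_closedBall 0
  refine ⟨ρ, fun Q => ⟨fun y => φ (y - Q), ⟨hs.comp (contDiff_id.sub contDiff_const), ?_, ?_, ?_,
    ?_⟩, fun y hy => ?_⟩⟩
  · exact hc.comp_homeomorph (Homeomorph.subRight Q)
  · rw [integral_sub_right_eq_self (fun y => φ y ^ 2) Q, hn]
  · exact hi.comp_sub_right Q
  · have h1 : ∀ y, kin1 (fun y => φ (y - Q)) y = kin1 φ (y - Q) := by
      intro y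
      unfold kin1
      rw [fderiv_comp_sub]
    simp only [h1]
    rw [integral_sub_right_eq_self (kin1 φ) Q,
      integral_sub_right_eq_self (fun y => ‖y‖⁻¹ * φ y ^ 2) Q]
    exact hE
  · rw [dist_eq_norm]
    exact mem_closedBall_zero_iff.mp (hρ (subset_tsupport _ hy))

/-- A product wave function. -/
noncomputable def pf (s : ℝ) (f₀ f₁ : E3 → ℝ) (x : Conf 2) : ℂ :=
  ((s * (f₀ (x 0) * f₁ (x 1)) : ℝ) : ℂ)

theorem pf_contDiff (s : ℝ) {f₀ f₁ : E3 → ℝ} (h₀ : ContDiff ℝ (⊤ : ℕ∞) f₀)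
    (h₁ : ContDiff ℝ (⊤ : ℕ∞) f₁) : ContDiff ℝ (⊤ : ℕ∞) (pf s f₀ f₁) :=
  Complex.ofRealCLM.contDiff.comp (contDiff_const.mul
    ((h₀.comp (contDiff_apply ℝ E3 0)).mul (h₁.comp (contDiff_apply ℝ E3 1))))

theorem pf_compact (s : ℝ) {f₀ f₁ : E3 → ℝ} (h₀ : HasCompactSupport f₀)
    (h₁ : HasCompactSupport f₁) : HasCompactSupport (pf s f₀ f₁) := by
  have hK : IsCompact (Set.pi univ ![tsupport f₀, tsupport f₁]) :=
    isCompact_univ_pi fun i => by
      fin_cases i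
      · exact h₀
      · exact h₁
  refine HasCompactSupport.intro hK fun x hx => ?_
  by_contra h
  apply hx
  have h2 : f₀ (x 0) ≠ 0 ∧ f₁ (x 1) ≠ 0 := by
    constructor <;> intro h0 <;> apply h <;> simp [pf, h0]
  intro i _
  fin_cases i
  · exact subset_tsupport _ h2.1
  · exact subset_tsupport _ h2.2

theorem pf_norm_sq (s : ℝ) (f₀ f₁ : E3 → ℝ) (x : Conf 2) :
    ‖pf s f₀ f₁ x‖ ^ 2 = s ^ 2 * (f₀ (x 0) ^ 2 * f₁ (x 1) ^ 2) := by
  rw [pf, Complex.norm_real, Real.norm_eq_abs, sq_abs]; ring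

theorem pf_fderiv (s : ℝ) {f₀ f₁ : E3 → ℝ} (h₀ : ContDiff ℝ (⊤ : ℕ∞) f₀)
    (h₁ : ContDiff ℝ (⊤ : ℕ∞) f₁) (x v : Conf 2) :
    fderiv ℝ (pf s f₀ f₁) x v = ((s * (f₀ (x 0) * fderiv ℝ f₁ (x 1) (v 1) +
      f₁ (x 1) * fderiv ℝ f₀ (x 0) (v 0)) : ℝ) : ℂ) := by
  have a₀ : HasFDerivAt (fun x : Conf 2 => f₀ (x 0))
      ((fderiv ℝ f₀ (x 0)).comp (ContinuousLinearMap.proj 0)) x :=
    (h₀.differentiable (by simp) (x 0)).hasFDerivAt.comp x (hasFDerivAt_apply 0 x)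
  have a₁ : HasFDerivAt (fun x : Conf 2 => f₁ (x 1))
      ((fderiv ℝ f₁ (x 1)).comp (ContinuousLinearMap.proj 1)) x :=
    (h₁.differentiable (by simp) (x 1)).hasFDerivAt.comp x (hasFDerivAt_apply 1 x)
  have a₂ := Complex.ofRealCLM.hasFDerivAt.comp x ((a₀.fun_mul a₁).const_mul s)
  have : pf s f₀ f₁ = Complex.ofRealCLM ∘ fun x : Conf 2 => s * (f₀ (x 0) * f₁ (x 1)) := rfl
  rw [this, a₂.fderiv]
  simp
  ring

theorem pf_kin0 (s : ℝ) {f₀ f₁ : E3 → ℝ} (h₀ : ContDiff ℝ (⊤ : ℕ∞) f₀)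
    (h₁ : ContDiff ℝ (⊤ : ℕ∞) f₁) (x : Conf 2) :
    kin (pf s f₀ f₁) 0 x = s ^ 2 * (kin1 f₀ (x 0) * f₁ (x 1) ^ 2) := by
  simp only [kin, kin1, pf_fderiv s h₀ h₁, Complex.norm_real, Real.norm_eq_abs, sq_abs,
    Finset.sum_mul, Finset.mul_sum]
  refine Finset.sum_congr rfl fun k _ => ?_
  simp
  ring

theorem pf_kin1 (s : ℝ) {f₀ f₁ : E3 → ℝ} (h₀ : ContDiff ℝ (⊤ : ℕ∞) f₀)
    (h₁ : ContDiff ℝ (⊤ : ℕ∞) f₁) (x : Conf 2) :
    kin (pf s f₀ f₁) 1 x = s ^ 2 * (f₀ (x 0) ^ 2 * kin1 f₁ (x 1)) := by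
  simp only [kin, kin1, pf_fderiv s h₀ h₁, Complex.norm_real, Real.norm_eq_abs, sq_abs,
    Finset.sum_mul, Finset.mul_sum]
  refine Finset.sum_congr rfl fun k _ => ?_
  simp
  ring

theorem integral_two (F G : E3 → ℝ) :
    ∫ x : Conf 2, F (x 0) * G (x 1) = (∫ y, F y) * ∫ y, G y := by
  have := integral_fintype_prod_volume_eq_prod (ι := Fin 2) (E := fun _ => E3) ![F, G]
  simpa [Fin.prod_univ_two] using this

theorem integrable_two {F G : E3 → ℝ} (hF : Integrable F) (hG : Integrable G) :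
    Integrable fun x : Conf 2 => F (x 0) * G (x 1) := by
  have := Integrable.fintype_prod (ι := Fin 2) (f := ![F, G]) (μ := fun _ => volume) (fun i => by
    fin_cases i
    · exact hF
    · exact hG)
  simp only [Fin.prod_univ_two, Matrix.cons_val_zero, Matrix.cons_val_one] at this
  exact this

theorem pf_integral_norm (s : ℝ) {ζ : ℝ} {Q₀ Q₁ : E3} {f₀ f₁ : E3 → ℝ} (h₀ : Good ζ Q₀ f₀)
    (h₁ : Good ζ Q₁ f₁) : ∫ x, ‖pf s f₀ f₁ x‖ ^ 2 = s ^ 2 := by
  simp only [pf_norm_sq]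
  rw [integral_const_mul, integral_two (fun y => f₀ y ^ 2) (fun y => f₁ y ^ 2), h₀.2.2.1, h₁.2.2.1]
  ring

theorem pf_energy {K : ℕ} {z : Fin K → ℝ} (hz : ∀ j, 0 ≤ z j) (P : Fin K → E3) (j₀ j₁ : Fin K)
    {ζ ε : ℝ} (hz₀ : z j₀ = ζ) (hz₁ : z j₁ = ζ) (s : ℝ) {f₀ f₁ : E3 → ℝ}
    (h₀ : Good ζ (P j₀) f₀) (h₁ : Good ζ (P j₁) f₁)
    (hε : ∀ y₀ y₁, f₀ y₀ ≠ 0 → f₁ y₁ ≠ 0 → 1 / dist y₀ y₁ ≤ ε) :
    ∫ x, dens z P (pf s f₀ f₁) x ≤ s ^ 2 * (ε - 9 / 25 * ζ ^ 2) := by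
  obtain ⟨s₀, c₀, n₀, i₀, e₀⟩ := h₀
  obtain ⟨s₁, c₁, n₁, i₁, e₁⟩ := h₁
  have hφ : ContDiff ℝ 1 (pf s f₀ f₁) := (pf_contDiff s s₀ s₁).of_le (by simp)
  have hc := pf_compact s c₀ c₁
  have iN := integrable_norm_sq volume hφ.continuous hc
  have hrep : ∀ x : Conf 2, 1 / dist (x 0) (x 1) * ‖pf s f₀ f₁ x‖ ^ 2 ≤ ε * ‖pf s f₀ f₁ x‖ ^ 2 := by
    intro x
    by_cases a₀ : f₀ (x 0) = 0
    · simp [pf, a₀]
    by_cases a₁ : f₁ (x 1) = 0
    · simp [pf, a₁]
    exact mul_le_mul_of_nonneg_right (hε _ _ a₀ a₁) (by positivity)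
  have iR : Integrable fun x : Conf 2 => 1 / dist (x 0) (x 1) * ‖pf s f₀ f₁ x‖ ^ 2 := by
    refine (iN.const_mul ε).mono' ?_ (Eventually.of_forall fun x => ?_)
    · have m := hφ.continuous.measurable
      exact Measurable.aestronglyMeasurable (by fun_prop)
    · rw [Real.norm_of_nonneg (by positivity)]; exact hrep x
  have iD : Integrable (dens z P (pf s f₀ f₁)) := by
    have := (((integrable_kin hφ hc 0).add (integrable_kin hφ hc 1)).add iR).sub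
      ((onebody hz P one_pos hφ hc 0).1.add (onebody hz P one_pos hφ hc 1).1)
    refine this.congr (Eventually.of_forall fun x => ?_)
    simp only [dens_eq, Pi.add_apply, Pi.sub_apply]
    ring
  have q₀ := integrable_sq s₀.continuous c₀
  have q₁ := integrable_sq s₁.continuous c₁
  have k₀ := integrable_kin1 s₀ c₀
  have k₁ := integrable_kin1 s₁ c₁
  have v₀ : Integrable fun y => ζ * (‖y - P j₀‖⁻¹ * f₀ y ^ 2) := i₀.const_mul ζ
  have v₁ : Integrable fun y => ζ * (‖y - P j₁‖⁻¹ * f₁ y ^ 2) := i₁.const_mul ζ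
  have w₀ : Integrable fun y => kin1 f₀ y - ζ * (‖y - P j₀‖⁻¹ * f₀ y ^ 2) := k₀.sub v₀
  have w₁ : Integrable fun y => kin1 f₁ y - ζ * (‖y - P j₁‖⁻¹ * f₁ y ^ 2) := k₁.sub v₁
  have t₀ := integrable_two w₀ q₁
  have t₁ := integrable_two q₀ w₁
  have t₂ := (integrable_two q₀ q₁).const_mul ε
  have t₀₁ : Integrable fun x : Conf 2 =>
      (kin1 f₀ (x 0) - ζ * (‖x 0 - P j₀‖⁻¹ * f₀ (x 0) ^ 2)) * f₁ (x 1) ^ 2 +
      f₀ (x 0) ^ 2 * (kin1 f₁ (x 1) - ζ * (‖x 1 - P j₁‖⁻¹ * f₁ (x 1) ^ 2)) := t₀.add t₁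
  have t₃ : Integrable fun x : Conf 2 =>
      ((kin1 f₀ (x 0) - ζ * (‖x 0 - P j₀‖⁻¹ * f₀ (x 0) ^ 2)) * f₁ (x 1) ^ 2 +
      f₀ (x 0) ^ 2 * (kin1 f₁ (x 1) - ζ * (‖x 1 - P j₁‖⁻¹ * f₁ (x 1) ^ 2))) +
      ε * (f₀ (x 0) ^ 2 * f₁ (x 1) ^ 2) := t₀₁.add t₂
  have hV : ∀ (j : Fin K) (y : E3), z j = ζ → ζ * ‖y - P j‖⁻¹ ≤ Vpot z P y := by
    intro j y hj
    have := Finset.single_le_sum (f := fun j => z j / dist y (P j))
      (fun j _ => div_nonneg (hz j) dist_nonneg) (Finset.mem_univ j)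
    rwa [hj, dist_eq_norm, div_eq_mul_inv] at this
  have hle := integral_mono iD (t₃.const_mul (s ^ 2)) (fun x => by
    have a₀ := mul_le_mul_of_nonneg_right (hV j₀ (x 0) hz₀) (sq_nonneg ‖pf s f₀ f₁ x‖)
    have a₁ := mul_le_mul_of_nonneg_right (hV j₁ (x 1) hz₁) (sq_nonneg ‖pf s f₀ f₁ x‖)
    have a₂ := hrep x
    simp only [dens_eq, pf_kin0 s s₀ s₁, pf_kin1 s s₀ s₁]
    rw [pf_norm_sq] at a₀ a₁ a₂ ⊢
    nlinarith)
  refine hle.trans ?_
  rw [integral_const_mul, integral_add t₀₁ t₂, integral_add t₀ t₁, integral_const_mul,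
    integral_two (fun y => kin1 f₀ y - ζ * (‖y - P j₀‖⁻¹ * f₀ y ^ 2)) (fun y => f₁ y ^ 2),
    integral_two (fun y => f₀ y ^ 2) (fun y => kin1 f₁ y - ζ * (‖y - P j₁‖⁻¹ * f₁ y ^ 2)),
    integral_two (fun y => f₀ y ^ 2) (fun y => f₁ y ^ 2), n₀, n₁, integral_sub k₀ v₀,
    integral_sub k₁ v₁, integral_const_mul, integral_const_mul]
  refine mul_le_mul_of_nonneg_left ?_ (sq_nonneg s)
  linarith

theorem sum_spin (F : (Fin 2 → Fin 2) → ℝ) :
    ∑ σ, F σ = F ![0, 0] + F ![0, 1] + F ![1, 0] + F ![1, 1] := by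
  rw [← (finTwoArrowEquiv (Fin 2)).symm.sum_comp, Fintype.sum_prod_type]
  simp only [Fin.sum_univ_two, finTwoArrowEquiv_symm_apply]
  ring

theorem upper_eset {K : ℕ} {z : Fin K → ℝ} (hz : ∀ j, 0 ≤ z j) (P : Fin K → E3) (j₀ j₁ : Fin K)
    {ζ ε : ℝ} (hz₀ : z j₀ = ζ) (hz₁ : z j₁ = ζ) {f₀ f₁ : E3 → ℝ}
    (h₀ : Good ζ (P j₀) f₀) (h₁ : Good ζ (P j₁) f₁)
    (hε : ∀ y₀ y₁, f₀ y₀ ≠ 0 → f₁ y₁ ≠ 0 → 1 / dist y₀ y₁ ≤ ε) :
    ∃ E ∈ eset z P, E ≤ ε - 9 / 25 * ζ ^ 2 := by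
  let s : ℝ := √(1 / 2)
  have hs : s ^ 2 = 1 / 2 := Real.sq_sqrt (by norm_num)
  have hs' : (-s) ^ 2 = 1 / 2 := by rw [neg_sq, hs]
  let Ψ : (Fin 2 → Fin 2) → Conf 2 → ℂ := fun σ =>
    if σ 0 = 0 ∧ σ 1 = 1 then pf s f₀ f₁ else if σ 0 = 1 ∧ σ 1 = 0 then pf (-s) f₁ f₀ else 0
  have h00 : Ψ ![0, 0] = 0 := by simp [Ψ]
  have h01 : Ψ ![0, 1] = pf s f₀ f₁ := by simp [Ψ]
  have h10 : Ψ ![1, 0] = pf (-s) f₁ f₀ := by simp [Ψ]
  have h11 : Ψ ![1, 1] = 0 := by simp [Ψ]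
  refine ⟨_, ⟨fun x σ => Ψ σ x, fun σ => ?_, fun σ => ?_, fun π x σ => ?_, ?_, rfl⟩, ?_⟩
  · change ContDiff ℝ _ (Ψ σ)
    simp only [Ψ]
    split_ifs
    · exact pf_contDiff _ h₀.1 h₁.1
    · exact pf_contDiff _ h₁.1 h₀.1
    · exact contDiff_const
  · change HasCompactSupport (Ψ σ)
    simp only [Ψ]
    split_ifs
    · exact pf_compact _ h₀.2.1 h₁.2.1
    · exact pf_compact _ h₁.2.1 h₀.2.1
    · exact HasCompactSupport.zero
  · have hπ : π = 1 ∨ π = Equiv.swap 0 1 := by revert π; decide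
    rcases hπ with rfl | rfl
    · simp
    · have hσ : ∀ t : Fin 2, t = 0 ∨ t = 1 := by decide
      rcases hσ (σ 0) with a | a <;> rcases hσ (σ 1) with b | b <;>
        simp [Ψ, a, b, pf, mul_comm]
  · rw [sum_spin]
    beta_reduce
    rw [h00, h01, h10, h11, pf_integral_norm s h₀ h₁, pf_integral_norm (-s) h₁ h₀, hs, hs']
    simp
    norm_num
  · rw [sum_spin]
    change (∫ x, dens z P (Ψ ![0, 0]) x) + (∫ x, dens z P (Ψ ![0, 1]) x) +
      (∫ x, dens z P (Ψ ![1, 0]) x) + (∫ x, dens z P (Ψ ![1, 1]) x) ≤ _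
    have hz0 : ∫ x, dens z P 0 x = 0 := by simp [dens_eq, kin]
    have a := pf_energy hz P j₀ j₁ hz₀ hz₁ s h₀ h₁ hε
    have b := pf_energy hz P j₁ j₀ hz₁ hz₀ (-s) h₁ h₀ fun y₁ y₀ b₁ b₀ => by
      rw [dist_comm]; exact hε y₀ y₁ b₀ b₁
    rw [h00, h01, h10, h11, hz0]
    rw [hs] at a
    rw [hs'] at b
    linarith

end Pool.Agent.MP_cba161_mp

end

-- part MP_cba161_mp.Config
section

/-!
The configuration: two nuclei of charge `10⁻⁵` at distance `10⁹`, and `2·10⁸` nuclei of charge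
`10⁻⁸` at mutual distances at least `10¹⁵`.
-/

set_option autoImplicit false

open MeasureTheory Filter Topology Set

namespace Pool.Agent.MP_cba161_mp

theorem div_sr_le {w a r : ℝ} (hw : 0 ≤ w) (hr : 0 < r) {y : E3} (h : r ≤ ‖y‖) :
    w / sr a y ≤ w / r :=
  div_le_div_of_nonneg_left hw hr (h.trans (norm_le_sr a y))

theorem div_sr_le' {w a : ℝ} (hw : 0 ≤ w) (ha : 0 < a) (y : E3) : w / sr a y ≤ w / a :=
  div_le_div_of_nonneg_left hw ha (le_sr a y)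

theorem dust_bound {ι : Type*} [Fintype ι] (Q : ι → E3) {η a D : ℝ} (hη : 0 ≤ η) (ha : 0 < a)
    (hD : 0 < D) (hQ : ∀ m m', m ≠ m' → D ≤ dist (Q m) (Q m')) (y : E3) :
    ∑ m, η / sr a (y - Q m) ≤ η / a + Fintype.card ι * (η / (D / 2)) := by
  classical
  have h1 : ∀ m, η / sr a (y - Q m) ≤
      (if ‖y - Q m‖ < D / 2 then η / a else 0) + η / (D / 2) := by
    intro m
    split_ifs with h
    · have := div_sr_le' hη ha (y - Q m)
      have : 0 ≤ η / (D / 2) := by positivity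
      linarith
    · rw [zero_add]; exact div_sr_le hη (by positivity) (not_lt.mp h)
  refine (Finset.sum_le_sum fun m _ => h1 m).trans ?_
  rw [Finset.sum_add_distrib, ← Finset.sum_filter]
  simp only [Finset.sum_const, Finset.card_univ, nsmul_eq_mul]
  have h2 : (Finset.univ.filter fun m => ‖y - Q m‖ < D / 2).card ≤ 1 := by
    rw [Finset.card_le_one]
    intro m hm m' hm'
    by_contra hne
    have h3 := hQ m m' hne
    have h4 := dist_triangle_left (Q m) (Q m') y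
    rw [Finset.mem_filter, ← dist_eq_norm] at hm hm'
    linarith [hm.2, hm'.2]
  have h3 : ((Finset.univ.filter fun m => ‖y - Q m‖ < D / 2).card : ℝ) ≤ 1 := by exact_mod_cast h2
  have h4 : 0 ≤ η / a := by positivity
  nlinarith

/-- A unit vector. -/
noncomputable def e0 : E3 := EuclideanSpace.single 0 1

theorem norm_e0 : ‖e0‖ = 1 := by simp [e0]

/-- Positions along the axis. -/
noncomputable def tt (j : ℕ) : ℝ := if j = 0 then 0 else if j = 1 then 10 ^ 9 else j * 10 ^ 15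

/-- Charges. -/
noncomputable def ww (j : ℕ) : ℝ := if j < 2 then 1 / 10 ^ 5 else 1 / 10 ^ 8

theorem ww_pos (j : ℕ) : 0 < ww j := by unfold ww; split_ifs <;> positivity

theorem tt_strictMono : StrictMono tt := by
  refine strictMono_nat_of_lt_succ fun j => ?_
  rcases j with _ | _ | j
  · simp [tt]
  · simp [tt]; norm_num
  · simp [tt]

theorem RR_injective (M : ℕ) : Function.Injective fun j : Fin (M + 2) => tt j • e0 := by
  intro j j' h
  have h0 : e0 ≠ 0 := by rw [← norm_ne_zero_iff, norm_e0]; exact one_ne_zero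
  exact Fin.ext (tt_strictMono.injective (smul_left_injective ℝ h0 h))

theorem sum_ww (M : ℕ) : ∑ j : Fin (M + 2), ww j = 2 / 10 ^ 5 + M / 10 ^ 8 := by
  rw [Fin.sum_univ_succ, Fin.sum_univ_succ]
  have : ∀ m : Fin M, ww (m.succ.succ : Fin (M + 2)) = 1 / 10 ^ 8 := fun m => by simp [ww]
  simp only [this]
  simp [ww]
  ring

theorem GG_config (M : ℕ) (hM : (M : ℝ) = 2 * 10 ^ 8) (y : E3) :
    GG (fun j : Fin (M + 2) => ww j) (fun j => tt j • e0) (10 ^ 7) y ≤ 1025 / 10 ^ 15 ∧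
    (2 * 10 ^ 9 ≤ ‖y‖ →
      GG (fun j : Fin (M + 2) => ww j) (fun j => tt j • e0) (10 ^ 7) y ≤ 25 / 10 ^ 15) := by
  have hd := dust_bound (fun m : Fin M => (((m : ℝ) + 2) * 10 ^ 15) • e0) (η := 1 / 10 ^ 8)
    (a := 10 ^ 7) (D := 10 ^ 15) (by positivity) (by positivity) (by positivity) (by
      intro m m' hne
      rw [dist_eq_norm, ← sub_smul, norm_smul, norm_e0, mul_one, ← sub_mul, Real.norm_eq_abs,
        abs_mul, abs_of_pos (by positivity : (0 : ℝ) < 10 ^ 15)]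
      have h1 : (1 : ℝ) ≤ |((m : ℝ) + 2) - ((m' : ℝ) + 2)| := by
        have h2 : ((m : ℕ) : ℤ) - (m' : ℕ) ≠ 0 := by
          intro h; apply hne; apply Fin.ext; omega
        have h3 := Int.one_le_abs h2
        have h4 : ((1 : ℤ) : ℝ) ≤ ((|((m : ℕ) : ℤ) - (m' : ℕ)| : ℤ) : ℝ) := Int.cast_le.mpr h3
        push_cast at h4
        simpa using h4
      nlinarith) y
  rw [Fintype.card_fin, hM] at hd
  have hsum : GG (fun j : Fin (M + 2) => ww j) (fun j => tt j • e0) (10 ^ 7) y =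
      1 / 10 ^ 5 / sr (10 ^ 7) y + (1 / 10 ^ 5 / sr (10 ^ 7) (y - (10 ^ 9 : ℝ) • e0) +
        ∑ m : Fin M, 1 / 10 ^ 8 / sr (10 ^ 7) (y - (((m : ℝ) + 2) * 10 ^ 15) • e0)) := by
    unfold GG
    rw [Fin.sum_univ_succ, Fin.sum_univ_succ]
    have h1 : ∀ m : Fin M, ww (m.succ.succ : Fin (M + 2)) = 1 / 10 ^ 8 := fun m => by simp [ww]
    have h2 : ∀ m : Fin M, tt (m.succ.succ : Fin (M + 2)) = ((m : ℝ) + 2) * 10 ^ 15 := fun m => by
      simp [tt]; ring
    simp only [h1, h2]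
    simp [ww, tt]
  have hB : ‖(10 ^ 9 : ℝ) • e0‖ = 10 ^ 9 := by
    rw [norm_smul, norm_e0, mul_one, Real.norm_of_nonneg (by positivity)]
  have t1 := norm_sub_norm_le y ((10 ^ 9 : ℝ) • e0)
  have t2 := norm_sub_norm_le ((10 ^ 9 : ℝ) • e0) y
  rw [norm_sub_rev] at t2
  rw [hB] at t1 t2
  have hw : (0 : ℝ) ≤ 1 / 10 ^ 5 := by positivity
  have a1 := div_sr_le' hw (by positivity : (0 : ℝ) < 10 ^ 7) y
  have a2 := div_sr_le' hw (by positivity : (0 : ℝ) < 10 ^ 7) (y - (10 ^ 9 : ℝ) • e0)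
  rw [hsum]
  constructor
  · rcases le_total (10 ^ 9 / 2) ‖y‖ with h | h
    · have b := div_sr_le (a := 10 ^ 7) hw (by positivity) h
      norm_num at a2 b hd ⊢
      linarith
    · have t3 : (10 : ℝ) ^ 9 / 2 ≤ ‖y - (10 ^ 9 : ℝ) • e0‖ := by
        refine le_trans ?_ t2
        linarith
      have b := div_sr_le (a := 10 ^ 7) hw (by positivity) t3
      norm_num at a1 b hd ⊢
      linarith
  · intro h
    have b1 := div_sr_le (a := 10 ^ 7) hw (by positivity) h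
    have b2 := div_sr_le (a := 10 ^ 7) (r := 10 ^ 9) (y := y - (10 ^ 9 : ℝ) • e0) hw
      (by positivity) (by linarith)
    norm_num at b1 b2 hd ⊢
    linarith

theorem cost_config (M : ℕ) (hM : (M : ℝ) = 2 * 10 ^ 8) (y₀ y₁ : E3) (hne : y₀ ≠ y₁) :
    cost (fun j : Fin (M + 2) => ww j) (fun j => tt j • e0) (10 ^ 7) y₀ +
    cost (fun j : Fin (M + 2) => ww j) (fun j => tt j • e0) (10 ^ 7) y₁ - 1 / dist y₀ y₁
      ≤ 3 / 10 ^ 11 := by
  have hin : ∀ y, cost (fun j : Fin (M + 2) => ww j) (fun j => tt j • e0) (10 ^ 7) y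
      ≤ 28 / 10 ^ 12 := by
    intro y
    have h0 := GG_nonneg (fun j : Fin (M + 2) => (ww_pos j).le) (fun j => tt j • e0) (10 ^ 7) y
    have h1 := (GG_config M hM y).1
    unfold cost
    calc _ ≤ 3 / 2 * (1025 / 10 ^ 15) + ((10 : ℝ) ^ 7 * (1025 / 10 ^ 15) / 2) ^ 2 := by gcongr
      _ ≤ _ := by norm_num
  have hout : ∀ y, 2 * 10 ^ 9 ≤ ‖y‖ →
      cost (fun j : Fin (M + 2) => ww j) (fun j => tt j • e0) (10 ^ 7) y ≤ 1 / 10 ^ 12 := by
    intro y hy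
    have h0 := GG_nonneg (fun j : Fin (M + 2) => (ww_pos j).le) (fun j => tt j • e0) (10 ^ 7) y
    have h1 := (GG_config M hM y).2 hy
    unfold cost
    calc _ ≤ 3 / 2 * (25 / 10 ^ 15) + ((10 : ℝ) ^ 7 * (25 / 10 ^ 15) / 2) ^ 2 := by gcongr
      _ ≤ _ := by norm_num
  have hpos : 0 < dist y₀ y₁ := dist_pos.mpr hne
  have hnn : 0 ≤ 1 / dist y₀ y₁ := by positivity
  have a₀ := hin y₀
  have a₁ := hin y₁
  rcases le_total (2 * 10 ^ 9) ‖y₀‖ with h₀ | h₀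
  · have := hout y₀ h₀
    linarith
  rcases le_total (2 * 10 ^ 9) ‖y₁‖ with h₁ | h₁
  · have := hout y₁ h₁
    linarith
  have h2 : dist y₀ y₁ ≤ 4 * 10 ^ 9 := by
    rw [dist_eq_norm]; linarith [norm_sub_le y₀ y₁]
  have h3 := one_div_le_one_div_of_le hpos h2
  norm_num at *
  linarith

theorem not_monotone (M : ℕ) (hM : (M : ℝ) = 2 * 10 ^ 8) :
    ¬ MonotoneOn (fun l : ℝ => sInf (eset (fun j : Fin (M + 2) => ww j) fun j => l • tt j • e0))
      (Set.Ioi 0) := by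
  intro hmono
  have hz : ∀ j : Fin (M + 2), 0 ≤ ww j := fun j => (ww_pos j).le
  obtain ⟨ρ, hρ⟩ := exists_good (ζ := 1 / 10 ^ 5) (by positivity)
  let l : ℝ := 1 + 2 * |ρ| + 10 ^ 12
  have hl : 1 ≤ l := by
    have := abs_nonneg ρ
    have hl2 : l = 1 + 2 * |ρ| + 10 ^ 12 := rfl
    linarith
  have h1 := hmono (mem_Ioi.mpr one_pos) (mem_Ioi.mpr (one_pos.trans_le hl)) hl
  simp only [one_smul] at h1
  have h2 : -(3 / 10 ^ 11) ≤ sInf (eset (fun j : Fin (M + 2) => ww j) fun j => tt j • e0) :=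
    Real.le_sInf (lower_eset hz _ (a := 10 ^ 7) (by positivity) (by positivity)
      (cost_config M hM)) (by norm_num)
  obtain ⟨f₀, g₀, s₀⟩ := hρ (l • tt (0 : Fin (M + 2)) • e0)
  obtain ⟨f₁, g₁, s₁⟩ := hρ (l • tt (1 : Fin (M + 2)) • e0)
  obtain ⟨E, hE, hE'⟩ := upper_eset hz (fun j : Fin (M + 2) => l • tt j • e0) 0 1
    (ζ := 1 / 10 ^ 5) (ε := 1 / 10 ^ 12) (by simp [ww]) (by simp [ww]) g₀ g₁ (by
      intro y₀ y₁ b₀ b₁
      have c₀ := s₀ y₀ b₀
      have c₁ := s₁ y₁ b₁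
      have d : dist (l • tt (0 : Fin (M + 2)) • e0) (l • tt (1 : Fin (M + 2)) • e0)
          = l * 10 ^ 9 := by
        simp [tt, norm_smul, norm_e0, abs_of_pos (one_pos.trans_le hl)]
      have t := dist_triangle4 (l • tt (0 : Fin (M + 2)) • e0) y₀ y₁ (l • tt (1 : Fin (M + 2)) • e0)
      rw [d, dist_comm _ y₀] at t
      refine one_div_le_one_div_of_le (by positivity) ?_
      have := le_abs_self ρ
      have hl2 : l = 1 + 2 * |ρ| + 10 ^ 12 := rfl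
      nlinarith)
  have h3 := csInf_le (bddBelow_eset hz _) hE
  norm_num at h2 hE'
  linarith

end Pool.Agent.MP_cba161_mp

end
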